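import Pool.Agent.helper60.EPT.SpecS

/-!
Row sr:SNW (MP_2b48c2_lc): adding new clauses.
-/

set_option autoImplicit false

namespace Pool.Agent.EPT

open D

theorem SNW_mem {α : Type} [DecidableEq α] {a : ℕ} {Λ : Finset α} {F X : Finset (Finset α)} {s : ℕ}
    (hF : Good a Λ F) (hX : ∀ C ∈ X, C.card = s ∧ C ⊆ Λ) (hFX : ∀ C ∈ F, ∀ C' ∈ X, ¬ C ⊆ C') (C : Finset α) :
    C ∈ red (F ∪ X) ↔ C ∈ X ∨ (C ∈ F ∧ ∀ C' ∈ X, ¬ C' ⊆ C) := by
  unfold red
  rw [Finset.mem_filter, Finset.mem_union]
  constructor
  · rintro ⟨hC | hC, h⟩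
    · refine Or.inr ⟨hC, fun C' hC' hs => ?_⟩
      have := h C' (Finset.mem_union_right _ hC') hs
      subst this
      exact hFX C' hC C' hC' (Finset.Subset.refl _)
    · exact Or.inl hC
  · rintro (hC | ⟨hC, h⟩)
    · refine ⟨Or.inr hC, fun C' hC' hs => ?_⟩
      rcases Finset.mem_union.1 hC' with h' | h'
      · exact absurd hs (hFX C' h' C hC)
      · exact Finset.eq_of_subset_of_card_le hs (by rw [(hX C hC).1, (hX C' h').1])
    · refine ⟨Or.inl hC, fun C' hC' hs => ?_⟩
      rcases Finset.mem_union.1 hC' with h' | h'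
      · exact hF.anti C' h' C hC hs
      · exact absurd hs (h C' h')

theorem SNW : SNW_stmt := by
  intro α _ a Λ F X s hF hs hX hFX
  have hmem := SNW_mem hF hX hFX
  have hdisj : Disjoint F X := by
    rw [Finset.disjoint_left]
    intro C h1 h2
    exact hFX C h1 C h2 (Finset.Subset.refl _)
  refine ⟨?_, ?_, ?_, ?_⟩
  · intro C hC
    rcases (hmem C).1 hC with h | ⟨h, -⟩
    · obtain ⟨h1, h2⟩ := hX C h
      refine ⟨?_, ?_, h2⟩ <;> omega
    · exact ⟨(hF.card C h).1, (hF.card C h).2, hF.sub C h⟩
  · intro C hC C' hC' hsub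
    have h1 := (Finset.mem_filter.1 hC').2 C (Finset.mem_filter.1 hC).1 hsub
    exact h1
  · intro hs1
    subst hs1
    have hU : (red (F ∪ X)).filter (fun C => C.card = 1) = (F.filter fun C => C.card = 1) ∪ X := by
      ext C
      simp only [Finset.mem_filter, Finset.mem_union, hmem]
      constructor
      · rintro ⟨h | ⟨h, -⟩, hc⟩
        · exact Or.inr h
        · exact Or.inl ⟨h, hc⟩
      · rintro (⟨h, hc⟩ | h)
        · refine ⟨Or.inr ⟨h, fun C' hC' hsub => ?_⟩, hc⟩
          have := Finset.eq_of_subset_of_card_le hsub (by rw [(hX C' hC').1, hc])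
          subst this
          exact hFX C' h C' hC' (Finset.Subset.refl _)
        · exact ⟨Or.inl h, (hX C h).1⟩
    have hUU : UU (red (F ∪ X)) = UU F + X.card := by
      unfold UU
      rw [hU, Finset.card_union_of_disjoint]
      exact Finset.disjoint_of_subset_left (Finset.filter_subset _ _) hdisj
    have hT : (F.filter fun C => C.card = 2) ⊆
        ((red (F ∪ X)).filter fun C => C.card = 2) ∪ X.biUnion (fun x => F.filter fun C => C.card = 2 ∧ x ⊆ C) := by
      intro C hC
      obtain ⟨hC, hc⟩ := Finset.mem_filter.1 hC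
      by_cases h : ∀ C' ∈ X, ¬ C' ⊆ C
      · exact Finset.mem_union_left _ (Finset.mem_filter.2 ⟨(hmem C).2 (Or.inr ⟨hC, h⟩), hc⟩)
      · push Not at h
        obtain ⟨x, hx, hxC⟩ := h
        exact Finset.mem_union_right _ (Finset.mem_biUnion.2 ⟨x, hx, Finset.mem_filter.2 ⟨hC, hc, hxC⟩⟩)
    have hTT : TT F ≤ TT (red (F ∪ X)) + 2 * a * X.card := by
      refine (Finset.card_le_card hT).trans ((Finset.card_union_le _ _).trans ?_)
      refine Nat.add_le_add_left ?_ _
      refine Finset.card_biUnion_le.trans ?_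
      rw [mul_comm (2 * a)]
      refine Finset.sum_le_card_nsmul _ _ _ fun x hx => ?_
      obtain ⟨l, rfl⟩ := Finset.card_eq_one.1 (hX x hx).1
      exact (hF.deg l).le
    refine ⟨hUU, ?_, ?_⟩
    · unfold rho
      rw [hUU, mul_add]
      omega
    · intro l
      refine Finset.card_le_card fun C hC => ?_
      obtain ⟨h1, h2, h3⟩ := Finset.mem_filter.1 hC
      rcases (hmem C).1 h1 with h | ⟨h, -⟩
      · have := (hX C h).1
        omega
      · exact Finset.mem_filter.2 ⟨h, h2, h3⟩
  · intro hs2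
    subst hs2
    refine ⟨?_, ?_, ?_⟩
    · unfold UU
      refine congrArg Finset.card (Finset.ext fun C => ?_)
      simp only [Finset.mem_filter, hmem]
      constructor
      · rintro ⟨h | ⟨h, -⟩, hc⟩
        · have := (hX C h).1
          omega
        · exact ⟨h, hc⟩
      · rintro ⟨h, hc⟩
        refine ⟨Or.inr ⟨h, fun C' hC' hsub => ?_⟩, hc⟩
        have h1 := Finset.card_le_card hsub
        have h2 := (hX C' hC').1
        omega
    · have hU : (red (F ∪ X)).filter (fun C => C.card = 2) = (F.filter fun C => C.card = 2) ∪ X := by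
        ext C
        simp only [Finset.mem_filter, Finset.mem_union, hmem]
        constructor
        · rintro ⟨h | ⟨h, -⟩, hc⟩
          · exact Or.inr h
          · exact Or.inl ⟨h, hc⟩
        · rintro (⟨h, hc⟩ | h)
          · refine ⟨Or.inr ⟨h, fun C' hC' hsub => ?_⟩, hc⟩
            have := Finset.eq_of_subset_of_card_le hsub (by rw [(hX C' hC').1, hc])
            subst this
            exact hFX C' h C' hC' (Finset.Subset.refl _)
          · exact ⟨Or.inl h, (hX C h).1⟩
      unfold TT
      rw [hU, Finset.card_union_of_disjoint]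
      exact Finset.disjoint_of_subset_left (Finset.filter_subset _ _) hdisj
    · intro l
      have hsub : ((red (F ∪ X)).filter fun C => C.card = 2 ∧ {l} ⊆ C) ⊆
          (F.filter fun C => C.card = 2 ∧ {l} ⊆ C) ∪ (X.filter fun C => l ∈ C) := by
        intro C hC
        obtain ⟨h1, h2, h3⟩ := Finset.mem_filter.1 hC
        rcases (hmem C).1 h1 with h | ⟨h, -⟩
        · exact Finset.mem_union_right _ (Finset.mem_filter.2 ⟨h, Finset.singleton_subset_iff.1 h3⟩)
        · exact Finset.mem_union_left _ (Finset.mem_filter.2 ⟨h, h2, h3⟩)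
      exact (Finset.card_le_card hsub).trans (Finset.card_union_le _ _)

end Pool.Agent.EPT
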